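import Pool.Agent.Helper93.FZ.St

/-!
# Project FZ (MP_953b28_co), module REP: replacing the filled blocks
-/

set_option autoImplicit false

namespace Pool.Agent.Helper80.FZ

open Finset
open Pool.Agent.Helper93.FZ
open Pool.Agent.Helper92.Proto (IsLatin)

private lemma cover {n D : ℕ} (f : Fin n × Fin D → Fin n × Fin D) (hf : Function.Injective f)
    (b₀ s : Fin n) (h : ∀ j, (f (b₀, j)).1 = s) (l : Fin D) : ∃ j, f (b₀, j) = (s, l) := by
  have hinj : Function.Injective fun j : Fin D => (f (b₀, j)).2 := by
    intro j j' hj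
    have h1 : f (b₀, j) = f (b₀, j') := Prod.ext ((h j).trans (h j').symm) hj
    exact (Prod.mk.inj (hf h1)).2
  obtain ⟨j, hj⟩ := (Finite.injective_iff_surjective.1 hinj) l
  exact ⟨j, Prod.ext (h j) hj⟩

private lemma line {n D : ℕ} (g : Fin n → Option (Fin n)) (f : Fin n × Fin D → Fin n × Fin D)
    (q : Fin D → Fin D) (hf : Function.Injective f) (hq : Function.Injective q)
    (h : ∀ b s, g b.1 = some s → (f b).1 = s) :
    Function.Bijective fun b : Fin n × Fin D => (g b.1).elim (f b) (fun s => (s, q b.2)) := by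
  rw [Finite.injective_iff_bijective.symm]
  -- a filled block carries all the symbols of its class
  have key : ∀ (b : Fin n × Fin D) (b₀ s : Fin n), g b₀ = some s → (f b).1 = s → b.1 = b₀ := by
    intro b b₀ s hb₀ hb
    obtain ⟨j, hj⟩ := cover f hf b₀ s (fun j => h (b₀, j) s hb₀) (f b).2
    have h1 : f (b₀, j) = f b := by
      rw [hj, ← hb]
    exact (congrArg Prod.fst (hf h1)).symm
  intro b b' hbb
  rcases hg : g b.1 with _ | s
  · rcases hg' : g b'.1 with _ | s'
    · simp only [hg, hg', Option.elim] at hbb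
      exact hf hbb
    · simp only [hg, hg', Option.elim] at hbb
      have h1 : b.1 = b'.1 := key b b'.1 s' hg' (by rw [hbb])
      rw [h1, hg'] at hg
      exact absurd hg (by simp)
  · rcases hg' : g b'.1 with _ | s'
    · simp only [hg, hg', Option.elim] at hbb
      have h1 : b'.1 = b.1 := key b' b.1 s hg (by rw [← hbb])
      rw [h1, hg] at hg'
      exact absurd hg' (by simp)
    · simp only [hg, hg', Option.elim] at hbb
      obtain ⟨h1, h2⟩ := Prod.mk.inj hbb
      subst h1
      have h3 : b.1 = b'.1 := key b b'.1 s hg' (h b s hg)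
      exact Prod.ext h3 (hq h2)

/-- Module REP. -/
theorem hREP : StREP := by
  intro n D P L L0 hr hc hL0 hP
  refine ⟨fun a b => (P a.1 b.1).elim (L a b) (fun s => (s, L0 a.2 b.2)), ?_, ?_, ?_⟩
  · intro a
    exact line (P a.1) (L a) (L0 a.2) (hr a).injective (hL0.1 a.2).injective
      (fun b s hb => hP a b s hb)
  · intro b
    exact line (fun r => P r b.1) (fun a => L a b) (fun i => L0 i b.2) (hc b).injective
      (hL0.2 b.2).injective (fun a s ha => hP a b s ha)
  · intro r i c j s hs
    simp only [hs, Option.elim]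

end Pool.Agent.Helper80.FZ
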